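import Mathlib
import Pool.Agent.H813R3.Voj.Pts

/-!
# Vojta's inequality with truncated counting function and discriminant term for points of
degree `r` on the projective line: definitions and statements of the parts

For a polynomial `f` of degree `r` with root `x`, `value f (u, v) = a ∏ (u - x_i v)` is the value
of the binary form attached to `f`.
-/

set_option autoImplicit false

namespace Pool.Agent.W223.VD

open Polynomial IntermediateField IsDedekindDomain NumberField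
open Pool.Agent.H813R3.Voj (value rho mahler)

/-- the subfields of `ℂ` of degree `n` over `ℚ` and discriminant at most `Δ` -/
def Flds (n : ℕ) (Δ : ℝ) : Set (IntermediateField ℚ ℂ) :=
  {K | ∃ _ : NumberField K, Module.finrank ℚ K = n ∧ |(NumberField.discr K : ℝ)| ≤ Δ}

/-- there are `O(Δ ^ α)` number fields of degree `n` and discriminant at most `Δ` -/
def FieldExp (n : ℕ) (α : ℝ) : Prop :=
  ∃ C : ℝ, 0 < C ∧ ∀ Δ : ℝ, 1 ≤ Δ → (Flds n Δ).Finite ∧ ((Flds n Δ).ncard : ℝ) ≤ C * Δ ^ α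

/-- the exponent obtained from the geometry of numbers: `1, 5/4, 9/4, 7/3, …` for
`n = 2, 3, 4, 5, …` -/
noncomputable def al (n : ℕ) : ℝ := ((n : ℝ) - 1) * (n + 2) / (4 * ((n + 1) / 2 : ℕ))

/-- FC: the number of fields, from the geometry of numbers -/
def StmtFC : Prop := ∀ n : ℕ, 1 ≤ n → FieldExp n (al n)

/-- FC1: a small generator with small trace -/
def StmtFC1 : Prop :=
  ∀ n : ℕ, 1 ≤ n → ∃ C : ℝ, 1 ≤ C ∧ ∀ (K : Type) [Field K] [NumberField K],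
    Module.finrank ℚ K = n → ∃ a : 𝓞 K, ℚ⟮(a : K)⟯ = ⊤ ∧
      0 ≤ Algebra.trace ℤ (𝓞 K) a ∧ Algebra.trace ℤ (𝓞 K) a < n ∧
      ∀ σ : K →+* ℂ, ‖σ (a : K)‖ ≤
        C * |(NumberField.discr K : ℝ)| ^ (1 / (2 * (((n + 1) / 2 : ℕ) : ℝ)))

/-- FC2: the number of fields with a generator of given size and small trace -/
def StmtFC2 : Prop :=
  ∀ n : ℕ, 1 ≤ n → ∃ C : ℝ, 1 ≤ C ∧ ∀ T : ℝ, 1 ≤ T →
    {K : IntermediateField ℚ ℂ | ∃ _ : NumberField K, Module.finrank ℚ K = n ∧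
      ∃ a : 𝓞 K, ℚ⟮(a : K)⟯ = ⊤ ∧ 0 ≤ Algebra.trace ℤ (𝓞 K) a ∧
        Algebra.trace ℤ (𝓞 K) a < n ∧ ∀ σ : K →+* ℂ, ‖σ (a : K)‖ ≤ T}.Finite ∧
    ({K : IntermediateField ℚ ℂ | ∃ _ : NumberField K, Module.finrank ℚ K = n ∧
      ∃ a : 𝓞 K, ℚ⟮(a : K)⟯ = ⊤ ∧ 0 ≤ Algebra.trace ℤ (𝓞 K) a ∧
        Algebra.trace ℤ (𝓞 K) a < n ∧ ∀ σ : K →+* ℂ, ‖σ (a : K)‖ ≤ T}.ncard : ℝ) ≤
      C * T ^ ((n : ℝ) * (n + 1) / 2 - 1)

/-- EV: the bound of Ellenberg and Venkatesh for the number of fields -/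
def StmtEV : Prop := ∀ η : ℝ, 0 < η → ∃ c : ℝ, 1 ≤ c ∧ ∀ n : ℕ, 1 ≤ n → FieldExp n (c * (n : ℝ) ^ η)

/-- NF: algebraic integers of given norm with bounded conjugates, uniformly in the field -/
def StmtNF : Prop :=
  ∀ (n : ℕ) (δ : ℝ), 0 < δ → ∃ C : ℝ, 0 < C ∧
    ∀ (K : Type) [Field K] [NumberField K], Module.finrank ℚ K = n →
    ∀ (m : ℤ) (X : ℝ) (E : Finset (𝓞 K)), m ≠ 0 → 1 ≤ X →
      (∀ y ∈ E, Algebra.norm ℤ y = m ∧ ∀ σ : K →+* ℂ, ‖σ (y : K)‖ ≤ X) →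
      (E.card : ℝ) ≤ C * X ^ δ

/-- ZP: the algebraic integer attached to two points -/
def StmtZP : Prop :=
  ∀ (r : ℕ) (P Q : ℤ × ℤ), 1 ≤ r → P.1 * Q.2 - Q.1 * P.2 ≠ 0 → ∃ C : ℝ, 0 < C ∧
    ∀ (K : Type) [Field K] [NumberField K], Module.finrank ℚ K = r →
    ∀ (x : K) (f : ℤ[X]) (H : ℝ), ℚ⟮x⟯ = ⊤ → f.natDegree = r → aeval x f = 0 →
      (∀ j, |(f.coeff j : ℝ)| ≤ H) → value f P ≠ 0 → value f Q ≠ 0 →
      (Q.1 : K) - x * (Q.2 : K) ≠ 0 ∧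
      ∃ y : 𝓞 K, (y : K) * ((Q.1 : K) - x * (Q.2 : K)) =
          (value f Q : K) * ((P.1 : K) - x * (P.2 : K)) ∧
        Algebra.norm ℤ y = value f Q ^ (r - 1) * value f P ∧
        ∀ σ : K →+* ℂ, ‖σ (y : K)‖ ≤ C * H

/-- GL: a form of Gauss' lemma -/
def StmtGL : Prop :=
  ∀ (K : Type) [Field K] [NumberField K] (x : K) (f : ℤ[X]) (P : ℤ × ℤ) (p : ℕ),
    ℚ⟮x⟯ = ⊤ → Irreducible f → f.natDegree = Module.finrank ℚ K → aeval x f = 0 →
    IsCoprime P.1 P.2 → p.Prime → (p : ℤ) ∣ value f P →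
    ∃ v : HeightOneSpectrum (𝓞 K), (p : 𝓞 K) ∈ v.asIdeal ∧
      v.valuation K ((P.1 : K) - x * (P.2 : K)) < max (v.valuation K x) 1

open Classical in
/-- The logarithmic discriminant `d(x)` of the field `ℚ(x)`. -/
noncomputable def logDisc (x : ℂ) : ℝ :=
  if _ : NumberField ℚ⟮x⟯ then
    Real.log |(NumberField.discr ℚ⟮x⟯ : ℝ)| / Module.finrank ℚ ℚ⟮x⟯ else 0

open Classical in
/-- The truncated counting function of `D = ∑ P_j` outside `S`, at the generator `x` of the number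
field `K`: the sum of `log N(v)` over the primes `v` of `K`, not above primes of `S`, at which the
local height of `x` with respect to some `P_j` is positive. -/
noncomputable def cnt {K : Type} [Field K] [NumberField K] {q : ℕ} (S : Finset ℕ)
    (P : Fin q → ℤ × ℤ) (x : K) : ℝ :=
  ∑ᶠ v : HeightOneSpectrum (𝓞 K),
    if (∀ p ∈ S, (p : 𝓞 K) ∉ v.asIdeal) ∧
      ∃ j, v.valuation K (((P j).1 : K) - x * ((P j).2 : K)) < max (v.valuation K x) 1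
    then Real.log (Ideal.absNorm v.asIdeal) else 0

/-- TR: the radicals of the values are controlled by the truncated counting function -/
def StmtTR : Prop :=
  ∀ (K : Type) [Field K] [NumberField K] (q : ℕ) (S S' : Finset ℕ) (P : Fin q → ℤ × ℤ) (x : K)
    (f : ℤ[X]), ℚ⟮x⟯ = ⊤ → Irreducible f → f.natDegree = Module.finrank ℚ K →
    aeval x f = 0 → (∀ j, IsCoprime (P j).1 (P j).2) → S ⊆ S' →
    (∀ i j, i ≠ j → ∀ p : ℕ, p.Prime → (p : ℤ) ∣ (P i).1 * (P j).2 - (P j).1 * (P i).2 → p ∈ S') →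
    (∀ p ∈ S', p.Prime) → (∀ j, value f (P j) ≠ 0) →
    Real.log (∏ j, (rho S' (value f (P j)) : ℝ)) ≤ cnt S P x

/-- C2: the points whose field has a small discriminant -/
def StmtC2 : Prop :=
  ∀ (r q : ℕ) (α : ℝ), 2 ≤ r → 3 ≤ q → 1 ≤ α → FieldExp r α →
    ∀ (P : Fin q → ℤ × ℤ), (∀ i j, i ≠ j → (P i).1 * (P j).2 - (P j).1 * (P i).2 ≠ 0) →
    ∀ (S : Finset ℕ) (u t c δ : ℝ), 0 ≤ u → 0 ≤ t → 0 < δ → ∃ C : ℝ, 0 < C ∧
    ∀ B : ℝ, 1 ≤ B → ∀ E : Finset ℂ,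
      (∀ x ∈ E, ∃ f : ℤ[X], Irreducible f ∧ f.natDegree = r ∧ aeval x f = 0 ∧
        mahler f ≤ B ^ r ∧ (∀ j, value f (P j) ≠ 0) ∧
        Real.log (∏ j, (rho S (value f (P j)) : ℝ)) + r * logDisc x ≤ r * (u * Real.log B + c) ∧
        r * logDisc x ≤ r * (t * Real.log B + c)) →
      (E.card : ℝ) ≤ C * B ^ ((r : ℝ) * ((α - 2 / q) * t + 2 * u / q) + δ)

end Pool.Agent.W223.VD
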