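import Mathlib
import Pool.Agent.W223.VD.Stms

/-!
# The points with given field and given values at two points
-/

set_option autoImplicit false

namespace Pool.Agent.W223.VD

open Polynomial IntermediateField IsDedekindDomain NumberField
open Pool.Agent.H813R3.Voj (value rho mahler)

theorem minpoly_data {r : ℕ} (hr : 1 ≤ r) {x : ℂ} {f : ℤ[X]} (hf : Irreducible f)
    (hd : f.natDegree = r) (hx : aeval x f = 0) :
    IsIntegral ℚ x ∧ (minpoly ℚ x).natDegree = r := by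
  have hp : f.IsPrimitive := hf.isPrimitive (by omega)
  have hi : Irreducible (f.map (Int.castRingHom ℚ)) :=
    (IsPrimitive.Int.irreducible_iff_irreducible_map_cast hp).mp hf
  have hx' : aeval x (f.map (Int.castRingHom ℚ)) = 0 := by
    rw [← algebraMap_int_eq, aeval_map_algebraMap]
    exact hx
  have h1 := minpoly.eq_of_irreducible hi hx'
  have hne : f.map (Int.castRingHom ℚ) ≠ 0 := hi.ne_zero
  have hint : IsIntegral ℚ x := by
    rw [← isAlgebraic_iff_isIntegral]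
    exact ⟨_, hne, hx'⟩
  refine ⟨hint, ?_⟩
  rw [← h1, natDegree_mul_C (inv_ne_zero (leadingCoeff_ne_zero.mpr hne)),
    natDegree_map_eq_of_injective (RingHom.injective_int _), hd]

theorem field_data {r : ℕ} (hr : 1 ≤ r) {x : ℂ} {f : ℤ[X]} (hf : Irreducible f)
    (hd : f.natDegree = r) (hx : aeval x f = 0) :
    NumberField ℚ⟮x⟯ ∧ Module.finrank ℚ ℚ⟮x⟯ = r := by
  obtain ⟨h1, h2⟩ := minpoly_data hr hf hd hx
  have h3 : FiniteDimensional ℚ ℚ⟮x⟯ := adjoin.finiteDimensional h1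
  exact ⟨@NumberField.mk _ _ inferInstance h3, by rw [adjoin.finrank h1, h2]⟩

theorem top_of {K : IntermediateField ℚ ℂ} {x : ℂ} (h : ℚ⟮x⟯ = K) :
    ∃ hx : x ∈ K, ℚ⟮(⟨x, hx⟩ : K)⟯ = ⊤ := by
  have hx : x ∈ K := h ▸ mem_adjoin_simple_self ℚ x
  refine ⟨hx, ?_⟩
  have h1 : @IntermediateField.adjoin ℚ _ K _ K.algebra' {⟨x, hx⟩} = ⊤ := by
    apply IntermediateField.lift_injective K
    rw [IntermediateField.lift_top, IntermediateField.lift_adjoin, Set.image_singleton]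
    exact h
  convert h1 <;> exact Subsingleton.elim _ _

/-- the points with given field and given values at two points -/
theorem fibre (hNF : StmtNF) (hZP : StmtZP) {r : ℕ} (hr : 1 ≤ r) (P Q : ℤ × ℤ)
    (hdet : P.1 * Q.2 - Q.1 * P.2 ≠ 0) {δ : ℝ} (hδ : 0 < δ) :
    ∃ C : ℝ, 0 < C ∧ ∀ (K : IntermediateField ℚ ℂ) (_ : NumberField K),
      Module.finrank ℚ K = r → ∀ (a b : ℤ) (H : ℝ), a ≠ 0 → b ≠ 0 → 1 ≤ H → ∀ E : Finset ℂ,
      (∀ x ∈ E, ℚ⟮x⟯ = K ∧ ∃ f : ℤ[X], f.natDegree = r ∧ aeval x f = 0 ∧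
        (∀ j, |(f.coeff j : ℝ)| ≤ H) ∧ value f P = a ∧ value f Q = b) →
      (E.card : ℝ) ≤ C * H ^ δ := by
  classical
  obtain ⟨C1, hC1, hZ⟩ := hZP r P Q hr hdet
  obtain ⟨C2, hC2, hN⟩ := hNF r δ hδ
  refine ⟨C2 * (max C1 1) ^ δ, by positivity, ?_⟩
  intro K _ hK a b H ha hb hH E hE
  have key : ∀ x : ℂ, x ∈ E → ∃ y : 𝓞 K, (((y : K) : ℂ)) * ((Q.1 : ℂ) - x * (Q.2 : ℂ)) =
      (b : ℂ) * ((P.1 : ℂ) - x * (P.2 : ℂ)) ∧ Algebra.norm ℤ y = b ^ (r - 1) * a ∧
      ∀ σ : K →+* ℂ, ‖σ (y : K)‖ ≤ C1 * H := by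
    intro x hx
    obtain ⟨h1, f, h2, h3, h4, h5, h6⟩ := hE x hx
    obtain ⟨hxK, h7⟩ := top_of h1
    have h8 : aeval (⟨x, hxK⟩ : K) f = 0 := by
      have h9 : (aeval (⟨x, hxK⟩ : K) f : K).1 = 0 := by
        have := aeval_algebraMap_apply ℂ (⟨x, hxK⟩ : K) f
        have h10 : algebraMap K ℂ (⟨x, hxK⟩ : K) = x := rfl
        rw [h10, h3] at this
        exact this.symm
      exact Subtype.ext h9
    obtain ⟨-, y, h9, h10, h11⟩ := hZ K hK ⟨x, hxK⟩ f H h7 h2 h8 h4 (by rw [h5]; exact ha)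
      (by rw [h6]; exact hb)
    rw [h5, h6] at h10
    rw [h6] at h9
    refine ⟨y, ?_, h10, h11⟩
    have h12 := congrArg (fun z : K => (z : ℂ)) h9
    simpa using h12
  choose! y hy1 hy2 hy3 using key
  have hinj : Set.InjOn y E := by
    intro x hx x' hx' h
    have e1 := hy1 x hx
    have e2 := hy1 x' hx'
    rw [← h] at e2
    set Y : ℂ := ((y x : K) : ℂ) with hY
    have hbC : (b : ℂ) ≠ 0 := by exact_mod_cast hb
    have hdC : (P.1 : ℂ) * Q.2 - Q.1 * P.2 ≠ 0 := by exact_mod_cast hdet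
    by_cases h3 : (b : ℂ) * P.2 - Y * Q.2 = 0
    · exfalso
      have h4 : (b : ℂ) * P.1 - Y * Q.1 = 0 := by linear_combination (-1 : ℂ) * e1 + x * h3
      have h5 : (b : ℂ) * ((P.1 : ℂ) * Q.2 - Q.1 * P.2) = 0 := by
        linear_combination (Q.2 : ℂ) * h4 - (Q.1 : ℂ) * h3
      exact (mul_ne_zero hbC hdC) h5
    · have h6 : ((b : ℂ) * P.2 - Y * Q.2) * (x - x') = 0 := by
        linear_combination e1 - e2
      exact sub_eq_zero.mp ((mul_eq_zero.mp h6).resolve_left h3)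
  have hX : 1 ≤ max C1 1 * H := one_le_mul_of_one_le_of_one_le (le_max_right _ _) hH
  have h1 := hN K hK (b ^ (r - 1) * a) (max C1 1 * H) (E.image y)
    (mul_ne_zero (pow_ne_zero _ hb) ha) hX (by
      intro z hz
      obtain ⟨x, hx, rfl⟩ := Finset.mem_image.mp hz
      refine ⟨hy2 x hx, fun σ => (hy3 x hx σ).trans ?_⟩
      exact mul_le_mul_of_nonneg_right (le_max_left _ _) (by linarith))
  rw [Finset.card_image_of_injOn hinj, Real.mul_rpow (by positivity) (by linarith)] at h1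
  linarith

end Pool.Agent.W223.VD
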