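import Mathlib
import Pool.Agent.W223.VD.Fib

/-!
# The points whose field has a small discriminant
-/

set_option autoImplicit false

namespace Pool.Agent.W223.VD

open Polynomial IntermediateField IsDedekindDomain NumberField
open Pool.Agent.H813R3.Voj

theorem logDisc_eq {x : ℂ} (h : NumberField ℚ⟮x⟯) :
    logDisc x = Real.log |(NumberField.discr ℚ⟮x⟯ : ℝ)| / Module.finrank ℚ ℚ⟮x⟯ := by
  unfold logDisc
  rw [dif_pos h]

theorem logDisc_nonneg (x : ℂ) : 0 ≤ logDisc x := by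
  unfold logDisc
  split_ifs with h
  · refine div_nonneg (Real.log_nonneg ?_) (Nat.cast_nonneg _)
    have h1 : NumberField.discr ℚ⟮x⟯ ≠ 0 := NumberField.discr_ne_zero _
    have h2 : 1 ≤ |NumberField.discr ℚ⟮x⟯| := Int.one_le_abs h1
    exact_mod_cast h2
  · exact le_rfl

theorem mem_flds {r : ℕ} (hr : 1 ≤ r) {x : ℂ} {f : ℤ[X]} (hf : Irreducible f)
    (hd : f.natDegree = r) (hx : aeval x f = 0) {y : ℝ} (h : r * logDisc x ≤ y) :
    ℚ⟮x⟯ ∈ Flds r (Real.exp y) := by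
  obtain ⟨h1, h2⟩ := field_data hr hf hd hx
  refine ⟨h1, h2, ?_⟩
  rw [logDisc_eq h1, h2] at h
  have hr0 : (0 : ℝ) < r := by exact_mod_cast hr
  rw [mul_div_cancel₀ _ hr0.ne'] at h
  have h3 : (NumberField.discr ℚ⟮x⟯ : ℝ) ≠ 0 := by exact_mod_cast NumberField.discr_ne_zero ℚ⟮x⟯
  calc |(NumberField.discr ℚ⟮x⟯ : ℝ)| = Real.exp (Real.log |(NumberField.discr ℚ⟮x⟯ : ℝ)|) :=
        (Real.exp_log (abs_pos.mpr h3)).symm
    _ ≤ Real.exp y := Real.exp_le_exp.mpr h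

/-- one cell -/
theorem cell (hNF : StmtNF) (hZP : StmtZP) {r : ℕ} (hr : 1 ≤ r) {α : ℝ} (hF : FieldExp r α)
    (P Q : ℤ × ℤ) (hdet : P.1 * Q.2 - Q.1 * P.2 ≠ 0) (S : Finset ℕ) {δ : ℝ} (hδ : 0 < δ) :
    ∃ C : ℝ, 0 < C ∧ ∀ (B : ℝ) (k : ℕ) (w : ℝ) (E : Finset ℂ), 1 ≤ B →
      (∀ x ∈ E, ∃ f : ℤ[X], Irreducible f ∧ f.natDegree = r ∧ aeval x f = 0 ∧
        mahler f ≤ B ^ r ∧ value f P ≠ 0 ∧ value f Q ≠ 0 ∧
        Real.log (rho S (value f P)) + Real.log (rho S (value f Q)) ≤ w ∧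
        r * logDisc x ≤ k + 1) →
      (E.card : ℝ) ≤ C * Real.exp (α * k + w) * B ^ δ := by
  classical
  have hr0 : (0 : ℝ) < r := by exact_mod_cast hr
  set ε : ℝ := δ / (2 * r) with hε
  have hε0 : 0 < ε := by positivity
  obtain ⟨C1, hC1, hF1⟩ := hF
  obtain ⟨C2, hC2, hR⟩ := count_rho S (Fin 2) hε0
  obtain ⟨C3, hC3, hf⟩ := fibre hNF hZP hr P Q hdet hε0
  set Λ : ℕ := lam r P + lam r Q + 1 with hΛ
  refine ⟨C1 * Real.exp α * C2 * (Λ : ℝ) ^ ε * C3 * ((2 : ℝ) ^ r) ^ ε * ((2 : ℝ) ^ r) ^ ε, by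
    positivity, ?_⟩
  intro B k w E hB hE
  have hB0 : 0 < B := by linarith
  have key : ∀ x : ℂ, x ∈ E → ∃ f : ℤ[X], Irreducible f ∧ f.natDegree = r ∧ aeval x f = 0 ∧
        mahler f ≤ B ^ r ∧ value f P ≠ 0 ∧ value f Q ≠ 0 ∧
        Real.log (rho S (value f P)) + Real.log (rho S (value f Q)) ≤ w ∧
        r * logDisc x ≤ k + 1 := hE
  choose! f hf1 hf2 hf3 hf4 hf5 hf6 hf7 hf8 using key
  set H : ℝ := 2 ^ r * B ^ r with hH
  have hH1 : 1 ≤ H := one_le_mul_of_one_le_of_one_le (one_le_pow₀ (by norm_num)) (one_le_pow₀ hB)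
  have hcoef : ∀ x ∈ E, ∀ j, |((f x).coeff j : ℝ)| ≤ H := by
    intro x hx j
    have h2 := coeff_le (f x) j
    rw [hf2 x hx] at h2
    exact h2.trans (mul_le_mul_of_nonneg_left (hf4 x hx) (by positivity))
  set N : ℕ := Λ * ⌊H⌋₊ with hN
  have hN1 : 1 ≤ N := Nat.mul_pos (Nat.succ_pos _) (Nat.floor_pos.mpr hH1)
  have hval : ∀ x ∈ E, ∀ R : ℤ × ℤ, lam r R ≤ Λ → |value (f x) R| ≤ (N : ℤ) := by
    intro x hx R hR
    rw [← ev_vec (hf2 x hx)]
    refine (abs_ev_le _ R ⌊H⌋₊ ?_).trans (by exact_mod_cast Nat.mul_le_mul_right _ hR)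
    intro i
    have h4 : ((f x).coeff i).natAbs ≤ ⌊H⌋₊ := by
      refine Nat.le_floor ?_
      rw [Nat.cast_natAbs]
      push_cast
      exact hcoef x hx i
    show |(f x).coeff i| ≤ _
    rw [Int.abs_eq_natAbs]
    exact_mod_cast h4
  -- the fields
  set Δ : ℝ := Real.exp (k + 1) with hΔ
  have hΔ1 : 1 ≤ Δ := Real.one_le_exp (by positivity)
  obtain ⟨hFfin, hFcard⟩ := hF1 Δ hΔ1
  have hfields : ((E.image fun x => ℚ⟮x⟯).card : ℝ) ≤ C1 * Δ ^ α := by
    refine le_trans ?_ hFcard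
    rw [← Set.ncard_coe_finset]
    have hsub : ((E.image fun x => ℚ⟮x⟯ : Finset (IntermediateField ℚ ℂ)) :
        Set (IntermediateField ℚ ℂ)) ⊆ Flds r Δ := by
      intro K hK
      rw [Finset.mem_coe] at hK
      obtain ⟨x, hx, rfl⟩ := Finset.mem_image.mp hK
      exact mem_flds hr (hf1 x hx) (hf2 x hx) (hf3 x hx) (hf8 x hx)
    exact_mod_cast Set.ncard_le_ncard hsub hFfin
  -- the values
  set V : ℂ → (Fin 2 → ℤ) := fun x => ![value (f x) P, value (f x) Q] with hV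
  have hvals : ((E.image V).card : ℝ) ≤ C2 * Real.exp w * (N : ℝ) ^ ε := by
    refine hR N hN1 (Real.exp w) (Real.exp_pos _).le (E.image V) ?_
    intro m hm
    obtain ⟨x, hx, rfl⟩ := Finset.mem_image.mp hm
    refine ⟨fun j => ?_, ?_⟩
    · fin_cases j
      · exact ⟨hf5 x hx, hval x hx P (by omega)⟩
      · exact ⟨hf6 x hx, hval x hx Q (by omega)⟩
    · rw [Fin.prod_univ_two]
      show (rho S (value (f x) P) : ℝ) * (rho S (value (f x) Q) : ℝ) ≤ Real.exp w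
      have h1 : (0 : ℝ) < rho S (value (f x) P) := by exact_mod_cast rho_pos S _
      have h2 : (0 : ℝ) < rho S (value (f x) Q) := by exact_mod_cast rho_pos S _
      rw [← Real.exp_log (mul_pos h1 h2), Real.log_mul h1.ne' h2.ne']
      exact Real.exp_le_exp.mpr (hf7 x hx)
  -- the fibres
  set G : ℂ → IntermediateField ℚ ℂ × (Fin 2 → ℤ) := fun x => (ℚ⟮x⟯, V x) with hG
  have hfib : ∀ g ∈ E.image G, ((E.filter fun x => G x = g).card : ℝ) ≤ C3 * H ^ ε := by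
    intro g hg
    obtain ⟨x₀, hx₀, rfl⟩ := Finset.mem_image.mp hg
    obtain ⟨h1, h2⟩ := field_data hr (hf1 x₀ hx₀) (hf2 x₀ hx₀) (hf3 x₀ hx₀)
    refine hf ℚ⟮x₀⟯ h1 h2 (value (f x₀) P) (value (f x₀) Q) H (hf5 x₀ hx₀) (hf6 x₀ hx₀) hH1 _ ?_
    intro x hx
    rw [Finset.mem_filter] at hx
    have h3 := congrArg Prod.fst hx.2
    have h4 := congrArg Prod.snd hx.2
    refine ⟨h3, f x, hf2 x hx.1, hf3 x hx.1, hcoef x hx.1, ?_, ?_⟩
    · exact congrFun h4 0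
    · exact congrFun h4 1
  have hcard : (E.card : ℝ) ≤ ((E.image fun x => ℚ⟮x⟯).card : ℝ) * ((E.image V).card : ℝ) *
      (C3 * H ^ ε) := by
    have h1 : (E.card : ℝ) = ∑ g ∈ E.image G, ((E.filter fun x => G x = g).card : ℝ) := by
      exact_mod_cast Finset.card_eq_sum_card_image G E
    rw [h1]
    refine (Finset.sum_le_sum hfib).trans ?_
    rw [Finset.sum_const, nsmul_eq_mul]
    refine mul_le_mul_of_nonneg_right ?_ (by positivity)
    have h2 : E.image G ⊆ (E.image fun x => ℚ⟮x⟯) ×ˢ (E.image V) := by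
      intro g hg
      obtain ⟨x, hx, rfl⟩ := Finset.mem_image.mp hg
      exact Finset.mem_product.mpr ⟨Finset.mem_image_of_mem _ hx, Finset.mem_image_of_mem _ hx⟩
    have h3 := Finset.card_le_card h2
    rw [Finset.card_product] at h3
    exact_mod_cast h3
  refine hcard.trans ?_
  have e1 : Δ ^ α = Real.exp α * Real.exp (α * k) := by
    rw [hΔ, ← Real.exp_mul, ← Real.exp_add]
    congr 1
    ring
  have e2 : H ^ ε = ((2 : ℝ) ^ r) ^ ε * B ^ (δ / 2) := by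
    rw [hH, Real.mul_rpow (by positivity) (by positivity)]
    congr 1
    rw [← Real.rpow_natCast, ← Real.rpow_mul hB0.le]
    congr 1
    rw [hε]
    field_simp
  have e3 : (N : ℝ) ^ ε ≤ (Λ : ℝ) ^ ε * H ^ ε := by
    rw [← Real.mul_rpow (by positivity) (by positivity)]
    refine Real.rpow_le_rpow (by positivity) ?_ hε0.le
    rw [hN]
    push_cast
    exact mul_le_mul_of_nonneg_left (Nat.floor_le (by positivity)) (by positivity)
  have e4 : B ^ δ = B ^ (δ / 2) * B ^ (δ / 2) := by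
    rw [← Real.rpow_add hB0]
    congr 1
    ring
  calc ((E.image fun x => ℚ⟮x⟯).card : ℝ) * ((E.image V).card : ℝ) * (C3 * H ^ ε)
      ≤ (C1 * Δ ^ α) * (C2 * Real.exp w * ((Λ : ℝ) ^ ε * H ^ ε)) * (C3 * H ^ ε) := by
        refine mul_le_mul_of_nonneg_right ?_ (by positivity)
        refine mul_le_mul hfields (hvals.trans ?_) (by positivity) (by positivity)
        exact mul_le_mul_of_nonneg_left e3 (by positivity)
    _ = _ := by
        rw [e1, e2, e4, Real.exp_add]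
        ring

end Pool.Agent.W223.VD
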