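import Mathlib
import Pool.Agent.W223.VD.Core

/-!
# The number of fields, from the geometry of numbers
-/

set_option autoImplicit false

namespace Pool.Agent.W223.VD

open Polynomial IntermediateField IsDedekindDomain NumberField
open Pool.Agent.H813R3.Voj

theorem fc (h1 : StmtFC1) (h2 : StmtFC2) : StmtFC := by
  intro n hn
  obtain ⟨C1, hC1, hK⟩ := h1 n hn
  obtain ⟨C2, hC2, hT⟩ := h2 n hn
  set h : ℕ := (n + 1) / 2 with hh
  have hh1 : 1 ≤ h := by omega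
  have hh0 : (0 : ℝ) < h := by exact_mod_cast hh1
  set e : ℝ := (n : ℝ) * (n + 1) / 2 - 1 with he
  have hn1 : (1 : ℝ) ≤ n := by exact_mod_cast hn
  have he0 : 0 ≤ e := by rw [he]; nlinarith
  refine ⟨C2 * C1 ^ e, by positivity, fun Δ hΔ => ?_⟩
  set T : ℝ := C1 * Δ ^ (1 / (2 * (h : ℝ))) with hTdef
  have hΔ0 : 0 < Δ := by linarith
  have hT1 : 1 ≤ T :=
    one_le_mul_of_one_le_of_one_le hC1 (Real.one_le_rpow hΔ (by positivity))
  obtain ⟨hfin, hcard⟩ := hT T hT1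
  have hsub : Flds n Δ ⊆ {K : IntermediateField ℚ ℂ | ∃ _ : NumberField K,
      Module.finrank ℚ K = n ∧ ∃ a : 𝓞 K, ℚ⟮(a : K)⟯ = ⊤ ∧ 0 ≤ Algebra.trace ℤ (𝓞 K) a ∧
        Algebra.trace ℤ (𝓞 K) a < n ∧ ∀ σ : K →+* ℂ, ‖σ (a : K)‖ ≤ T} := by
    rintro K ⟨hK1, hK2, hK3⟩
    obtain ⟨a, ha1, ha2, ha3, ha4⟩ := hK K hK2
    refine ⟨hK1, hK2, a, ha1, ha2, ha3, fun σ => (ha4 σ).trans ?_⟩
    rw [hTdef]
    refine mul_le_mul_of_nonneg_left ?_ (by linarith)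
    exact Real.rpow_le_rpow (abs_nonneg _) hK3 (by positivity)
  refine ⟨hfin.subset hsub, ?_⟩
  have h3 : ((Flds n Δ).ncard : ℝ) ≤ C2 * T ^ e :=
    le_trans (by exact_mod_cast Set.ncard_le_ncard hsub hfin) hcard
  refine h3.trans (le_of_eq ?_)
  rw [hTdef, Real.mul_rpow (by linarith) (by positivity), ← Real.rpow_mul hΔ0.le, mul_assoc]
  congr 3
  unfold al
  rw [← hh, he]
  field_simp
  ring

end Pool.Agent.W223.VD
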