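import Mathlib
import Pool.Agent.W223.VD.Core

/-!
# The points whose field has a small discriminant: summation over the cells
-/

set_option autoImplicit false

namespace Pool.Agent.W223.VD

open Polynomial IntermediateField IsDedekindDomain NumberField
open Pool.Agent.H813R3.Voj

/-- a logarithmic factor is absorbed -/
theorem log_absorb {a b δ : ℝ} (ha : 0 ≤ a) (hb : 0 ≤ b) (hδ : 0 < δ) :
    ∃ C : ℝ, 0 < C ∧ ∀ B : ℝ, 1 ≤ B → a * Real.log B + b ≤ C * B ^ δ := by
  refine ⟨a / δ + b + 1, by positivity, fun B hB => ?_⟩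
  have h1 : 1 ≤ B ^ δ := Real.one_le_rpow hB hδ.le
  have h2 : Real.log B ≤ B ^ δ / δ := Real.log_le_rpow_div (by linarith) hδ
  have h3 : a * Real.log B ≤ a * (B ^ δ / δ) := mul_le_mul_of_nonneg_left h2 ha
  have h4 : a * (B ^ δ / δ) = a / δ * B ^ δ := by ring
  nlinarith

theorem c2 (hNF : StmtNF) (hZP : StmtZP) : StmtC2 := by
  classical
  intro r q α hr hq hα hF P hP S u t c δ hu ht hδ
  have hr1 : 1 ≤ r := by omega
  have hr0 : (0 : ℝ) < r := by exact_mod_cast hr1
  have hq0 : (0 : ℝ) < q := by exact_mod_cast (show 0 < q by omega)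
  have hq3 : (3 : ℝ) ≤ q := by exact_mod_cast hq
  have h2q : (2 : ℝ) / q ≤ 1 := by rw [div_le_one hq0]; linarith
  have h2q0 : (0 : ℝ) ≤ 2 / q := by positivity
  have hα2 : 0 ≤ α - 2 / q := by linarith
  have hδ2 : 0 < δ / 2 := by positivity
  have hcell : ∀ p : Fin q × Fin q, ∃ C : ℝ, 0 < C ∧ (p.1 ≠ p.2 →
      ∀ (B : ℝ) (k : ℕ) (w : ℝ) (E : Finset ℂ), 1 ≤ B →
      (∀ x ∈ E, ∃ f : ℤ[X], Irreducible f ∧ f.natDegree = r ∧ aeval x f = 0 ∧
        mahler f ≤ B ^ r ∧ value f (P p.1) ≠ 0 ∧ value f (P p.2) ≠ 0 ∧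
        Real.log (rho S (value f (P p.1))) + Real.log (rho S (value f (P p.2))) ≤ w ∧
        r * logDisc x ≤ k + 1) →
      (E.card : ℝ) ≤ C * Real.exp (α * k + w) * B ^ (δ / 2)) := by
    intro p
    by_cases hp : p.1 = p.2
    · exact ⟨1, one_pos, fun h => absurd hp h⟩
    · obtain ⟨C, hC, h⟩ := cell hNF hZP hr1 hF (P p.1) (P p.2) (hP _ _ hp) S hδ2
      exact ⟨C, hC, fun _ => h⟩
  choose C hC hCB using hcell
  obtain ⟨C', hC', hlog⟩ := log_absorb (a := r * t) (b := r * |c| + 1) (δ := δ / 2)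
    (by positivity) (by positivity) hδ2
  set M : ℝ := ∑ p : Fin q × Fin q, C p with hM
  have hM0 : 0 ≤ M := Finset.sum_nonneg fun p _ => (hC p).le
  refine ⟨(M + 1) * C' * Real.exp ((α - 2 / q) * (r * |c|) + 2 / q * (r * |c|)), by positivity, ?_⟩
  intro B hB E hE
  have hB0 : 0 < B := by linarith
  set L : ℝ := Real.log B with hL
  have hL0 : 0 ≤ L := Real.log_nonneg hB
  choose! f hf1 hf2 hf3 hf4 hf5 hf6 hf7 using hE
  -- the pair of indices
  have hpair : ∀ x : ℂ, x ∈ E → ∃ p : Fin q × Fin q, p.1 ≠ p.2 ∧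
      (q : ℝ) * (Real.log (rho S (value (f x) (P p.1))) + Real.log (rho S (value (f x) (P p.2)))) ≤
        2 * ∑ j, Real.log (rho S (value (f x) (P j))) := by
    intro x _
    obtain ⟨J, hJ, hJs⟩ := exists_small (fun j => Real.log (rho S (value (f x) (P j)))) 2 (by omega)
    obtain ⟨i, j, hij, rfl⟩ := Finset.card_eq_two.mp hJ
    rw [Finset.sum_pair hij] at hJs
    refine ⟨(i, j), hij, ?_⟩
    push_cast at hJs
    exact hJs
  have hne0 : Nonempty (Fin q × Fin q) := ⟨(⟨0, by omega⟩, ⟨0, by omega⟩)⟩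
  choose! p hp1 hp2 using hpair
  set T : ℕ := ⌊(r : ℝ) * (t * L + |c|)⌋₊ with hT
  have hTnn : 0 ≤ (r : ℝ) * (t * L + |c|) := by positivity
  set col : ℂ → (Fin q × Fin q) × ℕ := fun x => (p x, ⌊(r : ℝ) * logDisc x⌋₊) with hcol
  have hlD : ∀ x ∈ E, (r : ℝ) * logDisc x ≤ r * (t * L + |c|) := by
    intro x hx
    refine (hf7 x hx).trans (mul_le_mul_of_nonneg_left ?_ hr0.le)
    linarith [le_abs_self c]
  have hmem : ∀ x ∈ E, col x ∈ (Finset.univ : Finset (Fin q × Fin q)) ×ˢ Finset.range (T + 1) := by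
    intro x hx
    rw [Finset.mem_product, Finset.mem_range]
    exact ⟨Finset.mem_univ _, Nat.lt_succ_of_le (Nat.floor_le_floor (hlD x hx))⟩
  have hsum : (E.card : ℝ) = ∑ g ∈ (Finset.univ : Finset (Fin q × Fin q)) ×ˢ Finset.range (T + 1),
      ((E.filter fun x => col x = g).card : ℝ) := by
    exact_mod_cast Finset.card_eq_sum_card_fiberwise (f := col) (s := E)
      (t := (Finset.univ : Finset (Fin q × Fin q)) ×ˢ Finset.range (T + 1))
      (fun x hx => Finset.mem_coe.mpr (hmem x (Finset.mem_coe.mp hx)))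
  set D : ℝ := Real.exp ((α - 2 / q) * (r * |c|) + 2 / q * (r * |c|)) *
    Real.exp ((r : ℝ) * ((α - 2 / q) * t + 2 * u / q) * L) with hD
  have hD0 : 0 < D := by positivity
  have hterm : ∀ g ∈ (Finset.univ : Finset (Fin q × Fin q)) ×ˢ Finset.range (T + 1),
      ((E.filter fun x => col x = g).card : ℝ) ≤ C g.1 * (D * B ^ (δ / 2)) := by
    intro g hg
    rw [Finset.mem_product, Finset.mem_range] at hg
    rcases (E.filter fun x => col x = g).eq_empty_or_nonempty with h0 | ⟨x₀, hx₀⟩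
    · rw [h0, Finset.card_empty, Nat.cast_zero]
      have := hC g.1
      positivity
    rw [Finset.mem_filter] at hx₀
    have hne : g.1.1 ≠ g.1.2 := by
      have h1 := congrArg Prod.fst hx₀.2
      have h2 : p x₀ = g.1 := h1
      rw [← h2]
      exact hp1 x₀ hx₀.1
    have h1 := hCB g.1 hne B g.2 (2 / q * (r * (u * L + |c|) - g.2))
      (E.filter fun x => col x = g) hB ?_
    · refine h1.trans ?_
      rw [mul_assoc]
      refine mul_le_mul_of_nonneg_left ?_ (hC g.1).le
      refine mul_le_mul_of_nonneg_right ?_ (by positivity)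
      rw [hD, ← Real.exp_add]
      apply Real.exp_le_exp.mpr
      have h2 : (g.2 : ℝ) ≤ r * (t * L + |c|) := by
        have h3 : g.2 ≤ T := Nat.lt_succ_iff.mp hg.2
        exact (Nat.le_floor_iff hTnn).mp h3
      have h3 := mul_le_mul_of_nonneg_left h2 hα2
      have h4 : (r : ℝ) * ((α - 2 / q) * t + 2 * u / q) * L =
          (α - 2 / q) * (r * (t * L)) + 2 / q * (r * (u * L)) := by ring
      rw [h4]
      nlinarith
    · intro x hx
      rw [Finset.mem_filter] at hx
      have h2 := congrArg Prod.fst hx.2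
      have h3 := congrArg Prod.snd hx.2
      have h2' : p x = g.1 := h2
      have h3' : ⌊(r : ℝ) * logDisc x⌋₊ = g.2 := h3
      have h4 := hp2 x hx.1
      rw [h2'] at h4
      have hlnn : 0 ≤ (r : ℝ) * logDisc x := mul_nonneg hr0.le (logDisc_nonneg x)
      have h5 : (g.2 : ℝ) ≤ r * logDisc x := by
        rw [← h3']; exact Nat.floor_le hlnn
      have h6 : (r : ℝ) * logDisc x ≤ g.2 + 1 := by
        rw [← h3']; exact (Nat.lt_floor_add_one _).le
      refine ⟨f x, hf1 x hx.1, hf2 x hx.1, hf3 x hx.1, hf4 x hx.1, hf5 x hx.1 _, hf5 x hx.1 _, ?_,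
        h6⟩
      have h7 := hf6 x hx.1
      rw [Real.log_prod (fun j _ => by exact_mod_cast (rho_pos S _).ne')] at h7
      have h8 : ∑ j, Real.log (rho S (value (f x) (P j))) ≤ r * (u * L + |c|) - g.2 := by
        have h9 : (r : ℝ) * (u * L + c) ≤ r * (u * L + |c|) :=
          mul_le_mul_of_nonneg_left (by linarith [le_abs_self c]) hr0.le
        linarith
      rw [div_mul_eq_mul_div, le_div_iff₀ hq0]
      linarith
  rw [hsum]
  refine (Finset.sum_le_sum hterm).trans ?_
  rw [Finset.sum_product]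
  simp only [Finset.sum_const, Finset.card_range, nsmul_eq_mul]
  rw [← Finset.mul_sum, ← Finset.sum_mul, ← hM]
  have hTle : ((T + 1 : ℕ) : ℝ) ≤ C' * B ^ (δ / 2) := by
    refine le_trans ?_ (hlog B hB)
    push_cast
    have := Nat.floor_le hTnn
    rw [← hT] at this
    have h10 : (r : ℝ) * (t * L + |c|) = r * t * L + r * |c| := by ring
    linarith
  have hBe : Real.exp ((r : ℝ) * ((α - 2 / q) * t + 2 * u / q) * L) * B ^ (δ / 2) * B ^ (δ / 2) =
      B ^ ((r : ℝ) * ((α - 2 / q) * t + 2 * u / q) + δ) := by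
    rw [Real.rpow_add hB0, mul_assoc, ← Real.rpow_add hB0, add_halves]
    congr 1
    rw [Real.rpow_def_of_pos hB0]
    congr 1
    ring
  calc ((T + 1 : ℕ) : ℝ) * (M * (D * B ^ (δ / 2)))
      ≤ (C' * B ^ (δ / 2)) * ((M + 1) * (D * B ^ (δ / 2))) := by
        refine mul_le_mul hTle ?_ (by positivity) (by positivity)
        exact mul_le_mul_of_nonneg_right (by linarith) (by positivity)
    _ = _ := by
        rw [← hBe, hD]
        ring

end Pool.Agent.W223.VD
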