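import Mathlib
import Pool.Agent.W223.VD.C2

/-!
# The count of the exceptional points
-/

set_option autoImplicit false

namespace Pool.Agent.W223.VD

open Polynomial IntermediateField IsDedekindDomain NumberField
open Pool.Agent.H813R3.Voj

/-- the exponent attached to an exponent `α` for the number of fields -/
noncomputable def expo (α : ℝ) (r q : ℕ) (κ : ℝ) : ℝ :=
  min (α * (q - κ)) (((q * α - 2) * (r + 1 - (min q (r + 1) : ℕ)) +
    (min q (r + 1) : ℕ) * α * (q - κ)) / (q * α + (min q (r + 1) : ℕ) - 2))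

/-- the values of an irreducible polynomial of degree at least two do not vanish -/
theorem value_ne_zero {r : ℕ} (hr : 2 ≤ r) {f : ℤ[X]} (hf : Irreducible f)
    (hd : f.natDegree = r) (P : ℤ × ℤ) (hP : IsCoprime P.1 P.2) : value f P ≠ 0 := by
  intro h
  by_cases hv : P.2 = 0
  · have h1 : value f P = f.coeff r * P.1 ^ r := by
      unfold value
      rw [hd, Finset.sum_range_succ, hv]
      have h2 : ∑ j ∈ Finset.range r, f.coeff j * P.1 ^ j * (0 : ℤ) ^ (r - j) = 0 := by
        refine Finset.sum_eq_zero fun j hj => ?_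
        rw [Finset.mem_range] at hj
        rw [zero_pow (by omega), mul_zero]
      rw [h2]
      simp
    have h3 : f.coeff r ≠ 0 := by
      rw [← hd]
      exact leadingCoeff_ne_zero.mpr hf.ne_zero
    have h4 : P.1 ≠ 0 := by
      intro h5
      rw [h5, hv] at hP
      obtain ⟨a, b, hab⟩ := hP
      simp at hab
    rw [h1] at h
    exact mul_ne_zero h3 (pow_ne_zero _ h4) h
  · have hp : f.IsPrimitive := hf.isPrimitive (by omega)
    have hi : Irreducible (f.map (Int.castRingHom ℚ)) :=
      (IsPrimitive.Int.irreducible_iff_irreducible_map_cast hp).mp hf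
    have hvQ : (P.2 : ℚ) ≠ 0 := by exact_mod_cast hv
    have h1 : (f.map (Int.castRingHom ℚ)).eval ((P.1 : ℚ) / P.2) = 0 := by
      have h2 : (P.2 : ℚ) ^ r * (f.map (Int.castRingHom ℚ)).eval ((P.1 : ℚ) / P.2) =
          (value f P : ℚ) := by
        rw [eval_map, eval₂_eq_sum_range, hd, Finset.mul_sum]
        unfold value
        rw [hd]
        push_cast
        refine Finset.sum_congr rfl fun j hj => ?_
        rw [Finset.mem_range] at hj
        have h3 : (P.2 : ℚ) ^ r = (P.2 : ℚ) ^ (r - j) * (P.2 : ℚ) ^ j := by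
          rw [← pow_add]; congr 1; omega
        rw [h3, div_pow]
        simp only [eq_intCast]
        field_simp
      rw [h] at h2
      have h4 := mul_eq_zero.mp (h2.trans Int.cast_zero)
      exact h4.resolve_left (pow_ne_zero _ hvQ)
    have h2 : (f.map (Int.castRingHom ℚ)).natDegree = 1 :=
      natDegree_eq_of_degree_eq_some (degree_eq_one_of_irreducible_of_root hi h1)
    rw [natDegree_map_eq_of_injective (RingHom.injective_int _), hd] at h2
    omega

/-- the set `S` enlarged by the primes dividing the determinants -/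
noncomputable def bad {q : ℕ} (S : Finset ℕ) (P : Fin q → ℤ × ℤ) : Finset ℕ :=
  S ∪ Finset.univ.biUnion fun p : Fin q × Fin q =>
    ((P p.1).1 * (P p.2).2 - (P p.2).1 * (P p.1).2).natAbs.primeFactors

theorem bad_prime {q : ℕ} {S : Finset ℕ} (hS : ∀ p ∈ S, p.Prime) (P : Fin q → ℤ × ℤ) :
    ∀ p ∈ bad S P, p.Prime := by
  intro p hp
  unfold bad at hp
  rcases Finset.mem_union.mp hp with h | h
  · exact hS p h
  · obtain ⟨i, _, h2⟩ := Finset.mem_biUnion.mp h
    exact Nat.prime_of_mem_primeFactors h2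

theorem bad_det {q : ℕ} (S : Finset ℕ) (P : Fin q → ℤ × ℤ)
    (hdet : ∀ i j, i ≠ j → (P i).1 * (P j).2 - (P j).1 * (P i).2 ≠ 0) :
    ∀ i j, i ≠ j → ∀ p : ℕ, p.Prime →
      (p : ℤ) ∣ (P i).1 * (P j).2 - (P j).1 * (P i).2 → p ∈ bad S P := by
  intro i j hij p hp hdvd
  unfold bad
  refine Finset.mem_union_right _ (Finset.mem_biUnion.mpr ⟨(i, j), Finset.mem_univ _, ?_⟩)
  rw [Nat.mem_primeFactors]
  exact ⟨hp, Int.natCast_dvd.mp hdvd, Int.natAbs_ne_zero.mpr (hdet i j hij)⟩

/-- the exceptional points -/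
def Exc {q : ℕ} (S : Finset ℕ) (P : Fin q → ℤ × ℤ) (r : ℕ) (u c B : ℝ) : Set ℂ :=
  {x | ∃ f : ℤ[X], Irreducible f ∧ f.natDegree = r ∧ aeval x f = 0 ∧ mahler f ≤ B ^ r ∧
    (∀ j, value f (P j) ≠ 0) ∧
    Real.log (∏ j, (rho S (value f (P j)) : ℝ)) + r * logDisc x ≤
      u * Real.log (mahler f) + c}

/-- the count -/
theorem count_exc (hC2 : StmtC2) (r q : ℕ) (α : ℝ) (hr : 2 ≤ r) (hq : 3 ≤ q) (hα : 1 ≤ α)
    (hF : FieldExp r α) (P : Fin q → ℤ × ℤ) (hP0 : ∀ j, P j ≠ 0)
    (hdet : ∀ i j, i ≠ j → (P i).1 * (P j).2 - (P j).1 * (P i).2 ≠ 0)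
    (S : Finset ℕ) (u c δ : ℝ) (hu : 0 ≤ u) (hδ : 0 < δ) :
    ∃ C : ℝ, 0 < C ∧ ∀ B : ℝ, 1 ≤ B → (Exc S P r u c B).Finite ∧
      ((Exc S P r u c B).ncard : ℝ) ≤ C * B ^ ((r : ℝ) * expo α r q (q - u) + δ) := by
  classical
  have hr0 : (0 : ℝ) < r := by exact_mod_cast (show 0 < r by omega)
  have hq0 : (0 : ℝ) < q := by exact_mod_cast (show 0 < q by omega)
  have hq3 : (3 : ℝ) ≤ q := by exact_mod_cast hq
  have hr2 : (2 : ℝ) ≤ r := by exact_mod_cast hr
  set m : ℕ := min q (r + 1) with hm
  have hmq : m ≤ q := min_le_left _ _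
  have hmr : m ≤ r + 1 := min_le_right _ _
  have hm3 : 3 ≤ m := by omega
  have hm3' : (3 : ℝ) ≤ m := by exact_mod_cast hm3
  have hmr' : (m : ℝ) ≤ r + 1 := by exact_mod_cast hmr
  have hden : 0 < q * α + m - 2 := by nlinarith
  have hden' : (q : ℝ) * α + m - 2 ≠ 0 := hden.ne'
  -- the crossing point
  set ts : ℝ := (q * (r + 1 - m) + (m - 2) * u) / (q * α + m - 2) with hts
  have hts0 : 0 ≤ ts := by
    rw [hts]
    refine div_nonneg ?_ hden.le
    have h1 : 0 ≤ (q : ℝ) * (r + 1 - m) := mul_nonneg hq0.le (by linarith)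
    have h2 : 0 ≤ ((m : ℝ) - 2) * u := mul_nonneg (by linarith) hu
    linarith
  set E' : ℝ := ((q * α - 2) * (r + 1 - m) + m * α * u) / (q * α + m - 2) with hE'
  have hexpo : expo α r q (q - u) = min (α * u) E' := by
    unfold expo
    rw [← hm, hE', sub_sub_cancel]
  have htsD : ts * (q * α + m - 2) = q * (r + 1 - m) + (m - 2) * u := by
    rw [hts]
    exact div_mul_cancel₀ _ hden'
  have hb2 : (α - 2 / q) * ts + 2 * u / q = E' := by
    rw [hE', eq_div_iff hden']
    have h1 : ((α - 2 / q) * ts + 2 * u / q) * (q * α + m - 2) =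
        (α - 2 / q) * (ts * (q * α + m - 2)) + 2 * u / q * (q * α + m - 2) := by ring
    rw [h1, htsD]
    field_simp
    ring
  have hb1 : (r : ℝ) + 1 - m + m * (u - ts) / q = E' := by
    rw [hE', eq_div_iff hden']
    have h1 : ((r : ℝ) + 1 - m + m * (u - ts) / q) * (q * α + m - 2) =
        ((r : ℝ) + 1 - m) * (q * α + m - 2) + m / q * (u * (q * α + m - 2) -
          ts * (q * α + m - 2)) := by ring
    rw [h1, htsD]
    field_simp
    ring
  have h2q : (2 : ℝ) / q ≤ 1 := by rw [div_le_one hq0]; linarith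
  -- general facts for the exceptional points
  have hgen : ∀ (B : ℝ), 1 ≤ B → ∀ x ∈ Exc S P r u c B, ∃ f : ℤ[X], Irreducible f ∧
      f.natDegree = r ∧ aeval x f = 0 ∧ mahler f ≤ B ^ r ∧ (∀ j, value f (P j) ≠ 0) ∧
      Real.log (∏ j, (rho S (value f (P j)) : ℝ)) + r * logDisc x ≤
        r * (u * Real.log B + |c|) ∧
      Real.log (∏ j, (rho S (value f (P j)) : ℝ)) + r * logDisc x ≤
        u * Real.log (mahler f) + c ∧ Real.log (mahler f) ≤ r * Real.log B ∧
      0 ≤ Real.log (∏ j, (rho S (value f (P j)) : ℝ)) := by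
    intro B hB x hx
    obtain ⟨f, h1, h2, h3, h4, h5, h6⟩ := hx
    have h7 : Real.log (mahler f) ≤ r * Real.log B := by
      rw [← Real.log_pow]
      exact Real.log_le_log (by linarith [one_le_mahler h1.ne_zero]) h4
    refine ⟨f, h1, h2, h3, h4, h5, ?_, h6, h7, ?_⟩
    · have h8 : u * Real.log (mahler f) ≤ u * (r * Real.log B) := mul_le_mul_of_nonneg_left h7 hu
      have h9 : c ≤ r * |c| := by
        have h10 := le_abs_self c
        have h11 : 1 * |c| ≤ r * |c| := mul_le_mul_of_nonneg_right (by linarith) (abs_nonneg c)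
        linarith
      have h12 : u * (r * Real.log B) = r * (u * Real.log B) := by ring
      rw [mul_add]
      linarith
    · refine Real.log_nonneg ?_
      have h8 : ∀ j, (1 : ℝ) ≤ rho S (value f (P j)) := fun j => by
        exact_mod_cast rho_pos S _
      calc (1 : ℝ) = ∏ _j : Fin q, (1 : ℝ) := by simp
        _ ≤ ∏ j, (rho S (value f (P j)) : ℝ) :=
          Finset.prod_le_prod (fun _ _ => zero_le_one) (fun j _ => h8 j)
  by_cases hcase : ts ≤ u
  · -- two ranges
    obtain ⟨C1, hC1, hcp⟩ := count_points r q (by omega) (by omega) P hP0 hdet S m hmq hmr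
      (u - ts) (r * |c|) δ (by linarith) hδ
    obtain ⟨C2, hC2', hc2⟩ := hC2 r q α hr hq hα hF P hdet S u ts |c| δ hu hts0 hδ
    have hE'le : E' ≤ α * u := by
      rw [← hb2]
      have h1 : (α - 2 / q) * ts ≤ (α - 2 / q) * u :=
        mul_le_mul_of_nonneg_left hcase (by linarith)
      have h2 : (α - 2 / q) * u + 2 * u / q = α * u := by ring
      linarith
    rw [hexpo, min_eq_right hE'le]
    refine ⟨C1 + C2, by positivity, fun B hB => ?_⟩
    refine ncard_le_of_finset _ _ fun E hE => ?_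
    have hB0 : 0 < B := by linarith
    have hL0 : 0 ≤ Real.log B := Real.log_nonneg hB
    have h1 := hcp B hB (E.filter fun x => ts * Real.log B < logDisc x) ?_
    · have h2 := hc2 B hB (E.filter fun x => ¬ ts * Real.log B < logDisc x) ?_
      · have h3 : (E.card : ℝ) = ((E.filter fun x => ts * Real.log B < logDisc x).card : ℝ) +
            ((E.filter fun x => ¬ ts * Real.log B < logDisc x).card : ℝ) := by
          exact_mod_cast (Finset.card_filter_add_card_filter_not _).symm
        rw [hb1] at h1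
        rw [hb2] at h2
        rw [h3, add_mul]
        exact add_le_add h1 h2
      · intro x hx
        rw [Finset.mem_filter, not_lt] at hx
        obtain ⟨f, g1, g2, g3, g4, g5, g6, g7, g8, g9⟩ := hgen B hB x (hE hx.1)
        refine ⟨f, g1, g2, g3, g4, g5, g6, mul_le_mul_of_nonneg_left ?_ hr0.le⟩
        linarith [abs_nonneg c, hx.2]
    · intro x hx
      rw [Finset.mem_filter] at hx
      obtain ⟨f, g1, g2, g3, g4, g5, g6, g7, g8, g9⟩ := hgen B hB x (hE hx.1)
      refine ⟨f, g1.ne_zero, g2, g3, g4, g5, ?_⟩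
      have h2 : (r : ℝ) * (ts * Real.log B) ≤ r * logDisc x :=
        mul_le_mul_of_nonneg_left hx.2.le hr0.le
      have h3 : ts * Real.log (mahler f) ≤ ts * (r * Real.log B) :=
        mul_le_mul_of_nonneg_left g8 hts0
      have h4 : c ≤ r * |c| := by
        have h10 := le_abs_self c
        have h11 : 1 * |c| ≤ r * |c| := mul_le_mul_of_nonneg_right (by linarith) (abs_nonneg c)
        linarith
      have h5 : (u - ts) * Real.log (mahler f) =
          u * Real.log (mahler f) - ts * Real.log (mahler f) := by ring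
      have h6 : (r : ℝ) * (ts * Real.log B) = ts * (r * Real.log B) := by ring
      rw [h5]
      linarith
  · -- one range
    push Not at hcase
    obtain ⟨C2, hC2', hc2⟩ := hC2 r q α hr hq hα hF P hdet S u u |c| δ hu hu hδ
    have hE'ge : α * u ≤ E' := by
      rw [← hb2]
      have h1 : (α - 2 / q) * u ≤ (α - 2 / q) * ts :=
        mul_le_mul_of_nonneg_left hcase.le (by linarith)
      have h2 : (α - 2 / q) * u + 2 * u / q = α * u := by ring
      linarith
    rw [hexpo, min_eq_left hE'ge]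
    refine ⟨C2, hC2', fun B hB => ?_⟩
    refine ncard_le_of_finset _ _ fun E hE => ?_
    have h1 := hc2 B hB E ?_
    · have h2 : (α - 2 / q) * u + 2 * u / q = α * u := by ring
      rw [h2] at h1
      exact h1
    · intro x hx
      obtain ⟨f, g1, g2, g3, g4, g5, g6, g7, g8, g9⟩ := hgen B hB x (hE hx)
      refine ⟨f, g1, g2, g3, g4, g5, g6, ?_⟩
      linarith

end Pool.Agent.W223.VD
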