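import Mathlib
import Pool.Agent.W223.VD.Final
import Pool.Agent.W223.VD.FC
import Pool.Agent.W32.VD.FC1
import Pool.Agent.W500.VD.FC2
import Pool.Agent.W333.VD.EV
import Pool.Agent.W585.VD.NF
import Pool.Agent.W310.VD.ZP
import Pool.Agent.W74.VD.GL
import Pool.Agent.W598.VD.TR

/-!
# The truncated Vojta inequality with discriminant term for algebraic points of degree `r` on the
projective line

`D = P_1 + ⋯ + P_q` is a sum of `q ≥ 3` distinct rational points of the line, `S` a finite set of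
primes. For the algebraic numbers `x` of degree `r ≥ 2` over `ℚ` and height at most `log B` (there
are about `B ^ (r (r + 1))` of them) we bound the number of those which do not satisfy
`(q - κ) h(x) ≤ N_S^{(1)}(D, x) + d(x) + C₀`; the conjecture says that for `κ > 2` they are finite
in number, even if `B` is arbitrary. All number fields of degree `r` are treated at the same time.
-/

set_option autoImplicit false

namespace Pool.Agent.W223.VD.Points

open Polynomial IntermediateField IsDedekindDomain NumberField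

/-- The absolute logarithmic height `(log M(f)) / deg f` of the roots of an irreducible integral
polynomial `f` (`M` is the Mahler measure). -/
noncomputable def height (f : ℤ[X]) : ℝ :=
  Real.log (f.map (Int.castRingHom ℂ)).mahlerMeasure / f.natDegree

open Classical in
/-- The truncated counting function `N_S^{(1)}(D, x)` of `D = ∑ P_j` outside `S`: with `K = ℚ(x)`,
the sum of `log N(v) / [K : ℚ]` over the primes `v` of `K`, not above primes of `S`, at which
`|u - x w|_v < max(|x|_v, 1)` for some `P_j = (u : w)`, that is, at which the local height of `x`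
with respect to `P_j` is positive. -/
noncomputable def truncated {q : ℕ} (S : Finset ℕ) (P : Fin q → ℤ × ℤ) (x : ℂ) : ℝ :=
  if _ : NumberField ℚ⟮x⟯ then
    (∑ᶠ v : HeightOneSpectrum (𝓞 ℚ⟮x⟯),
      if (∀ p ∈ S, (p : 𝓞 ℚ⟮x⟯) ∉ v.asIdeal) ∧
        ∃ j, v.valuation ℚ⟮x⟯
          (((P j).1 : ℚ⟮x⟯) - AdjoinSimple.gen ℚ x * ((P j).2 : ℚ⟮x⟯)) <
            max (v.valuation ℚ⟮x⟯ (AdjoinSimple.gen ℚ x)) 1
      then Real.log (Ideal.absNorm v.asIdeal) else 0) / Module.finrank ℚ ℚ⟮x⟯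
  else 0

open Classical in
/-- The logarithmic discriminant `d(x) = log |disc ℚ(x)| / [ℚ(x) : ℚ]`. -/
noncomputable def logDisc (x : ℂ) : ℝ :=
  if _ : NumberField ℚ⟮x⟯ then
    Real.log |(NumberField.discr ℚ⟮x⟯ : ℝ)| / Module.finrank ℚ ℚ⟮x⟯ else 0

/-- The number of number fields of degree `r` and discriminant at most `Δ` is
`O(Δ ^ (alpha r c η))`: here `alpha r c η` is the smaller of
`(r - 1) (r + 2) / (4 ⌈r / 2⌉)` and `c r ^ η`. -/
noncomputable def alpha (r : ℕ) (c η : ℝ) : ℝ :=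
  min (((r : ℝ) - 1) * (r + 2) / (4 * ((r + 1) / 2 : ℕ))) (c * (r : ℝ) ^ η)

/-- The exponent of the theorem: with `m = min q (r + 1)`, the smaller of `α (q - κ)` and
`((q α - 2) (r + 1 - m) + m α (q - κ)) / (q α + m - 2)`. -/
noncomputable def exponent (α : ℝ) (r q : ℕ) (κ : ℝ) : ℝ :=
  min (α * (q - κ)) (((q * α - 2) * (r + 1 - (min q (r + 1) : ℕ)) +
    (min q (r + 1) : ℕ) * α * (q - κ)) / (q * α + (min q (r + 1) : ℕ) - 2))

/-- The algebraic numbers `x` of degree `r` and height at most `log B` which violate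
`(q - κ) h(x) ≤ N_S^{(1)}(D, x) + d(x) + C₀`. -/
def exceptional {q : ℕ} (S : Finset ℕ) (P : Fin q → ℤ × ℤ) (r : ℕ) (κ C₀ B : ℝ) : Set ℂ :=
  {x | ∃ f : ℤ[X], Irreducible f ∧ f.natDegree = r ∧ aeval x f = 0 ∧ height f ≤ Real.log B ∧
    truncated S P x + logDisc x + C₀ < (q - κ) * height f}

open Pool.Agent.W223.VD in
theorem alpha_admissible {η : ℝ} (hη : 0 < η) : ∃ c : ℝ, 1 ≤ c ∧ ∀ r : ℕ, 2 ≤ r →
    1 ≤ alpha r c η ∧ FieldExp r (alpha r c η) := by
  obtain ⟨c, hc, h⟩ := Pool.Agent.W333.VD.t η hη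
  refine ⟨c, hc, fun r hr => ?_⟩
  have hr1 : (1 : ℝ) ≤ r := by exact_mod_cast (show 1 ≤ r by omega)
  have h1 : 1 ≤ c * (r : ℝ) ^ η :=
    one_le_mul_of_one_le_of_one_le hc (Real.one_le_rpow hr1 hη.le)
  have h2 : 1 ≤ al r := by
    unfold al
    have h3 : 0 < 4 * (((r + 1) / 2 : ℕ) : ℝ) := by
      have : 1 ≤ (r + 1) / 2 := by omega
      have h4 : (1 : ℝ) ≤ ((r + 1) / 2 : ℕ) := by exact_mod_cast this
      linarith
    rw [one_le_div h3]
    have h5 : 4 * ((r + 1) / 2) + 2 ≤ r * r + r := by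
      rcases Nat.lt_or_ge r 3 with h6 | h6
      · have : r = 2 := by omega
        subst this
        norm_num
      · have h7 : 2 * ((r + 1) / 2) ≤ r + 1 := Nat.mul_div_le _ _
        nlinarith
    have h6 : (4 : ℝ) * ((r + 1) / 2 : ℕ) + 2 ≤ r * r + r := by exact_mod_cast h5
    nlinarith
  have h3 := Pool.Agent.W223.VD.fc Pool.Agent.W32.VD.t Pool.Agent.W500.VD.FC2.t r (by omega)
  have h4 := h r (by omega)
  have h5 : alpha r c η = min (al r) (c * (r : ℝ) ^ η) := rfl
  rw [h5]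
  refine ⟨le_min h2 h1, ?_⟩
  rcases min_choice (al r) (c * (r : ℝ) ^ η) with h6 | h6 <;> rw [h6]
  · exact h3
  · exact h4

/-- **Truncated Vojta inequality with discriminant term for points of degree `r` on the line.**
Let `η > 0`. There is `c ≥ 1` such that for all `r ≥ 2`, all sums `D = P_1 + ⋯ + P_q` of `q ≥ 3`
distinct rational points of the line, all finite sets `S` of primes and all real `κ ≤ q`, `C₀` and
`δ > 0` the following holds for all `B ≥ 1`: all but
`C * B ^ (r * exponent (alpha r c η) r q κ + δ)` algebraic numbers `x` of degree `r` and height at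
most `log B` satisfy `(q - κ) h(x) ≤ N_S^{(1)}(D, x) + d(x) + C₀`. -/
theorem result : ∀ η : ℝ, 0 < η → ∃ c : ℝ, 1 ≤ c ∧ ∀ (r q : ℕ), 2 ≤ r → 3 ≤ q →
    ∀ P : Fin q → ℤ × ℤ, (∀ j, IsCoprime (P j).1 (P j).2) →
    (∀ i j, i ≠ j → (P i).1 * (P j).2 ≠ (P j).1 * (P i).2) →
    ∀ S : Finset ℕ, (∀ p ∈ S, p.Prime) → ∀ κ C₀ δ : ℝ, κ ≤ q → 0 < δ →
    ∃ C : ℝ, ∀ B : ℝ, 1 ≤ B → (exceptional S P r κ C₀ B).Finite ∧
      ((exceptional S P r κ C₀ B).ncard : ℝ) ≤
        C * B ^ ((r : ℝ) * exponent (alpha r c η) r q κ + δ) := by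
  intro η hη
  obtain ⟨c, hc, hα⟩ := alpha_admissible hη
  refine ⟨c, hc, ?_⟩
  intro r q hr hq P hP hPP S hS κ C₀ δ hκ hδ
  obtain ⟨hα1, hα2⟩ := hα r hr
  have hr0 : (0 : ℝ) < r := by exact_mod_cast (show 0 < r by omega)
  have hdet : ∀ i j, i ≠ j → (P i).1 * (P j).2 - (P j).1 * (P i).2 ≠ 0 :=
    fun i j hij => sub_ne_zero.mpr (hPP i j hij)
  have hP0 : ∀ j, P j ≠ 0 := by
    intro j h
    have h1 := hP j
    rw [h] at h1
    obtain ⟨a, b, hab⟩ := h1
    simp at hab
  set S' := Pool.Agent.W223.VD.bad S P with hS'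
  obtain ⟨C, hC, hB⟩ := Pool.Agent.W223.VD.count_exc
    (Pool.Agent.W223.VD.c2 Pool.Agent.W585.VD.t Pool.Agent.W310.VD.t) r q (alpha r c η) hr hq hα1
    hα2 P hP0 hdet S' (q - κ) (r * |C₀|) δ (by linarith) hδ
  refine ⟨C, fun B hB1 => ?_⟩
  obtain ⟨h1, h2⟩ := hB B hB1
  have hsub : exceptional S P r κ C₀ B ⊆
      Pool.Agent.W223.VD.Exc S' P r (q - κ) (r * |C₀|) B := by
    rintro x ⟨f, hf, hd, hx, hh, hv⟩
    have hM : 0 < (f.map (Int.castRingHom ℂ)).mahlerMeasure :=
      lt_of_lt_of_le one_pos (Pool.Agent.H813R3.Voj.one_le_mahler hf.ne_zero)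
    have hmh : Real.log (Pool.Agent.H813R3.Voj.mahler f) = r * height f := by
      unfold height
      rw [hd, mul_div_cancel₀ _ hr0.ne']
      rfl
    have hval : ∀ j, Pool.Agent.H813R3.Voj.value f (P j) ≠ 0 :=
      fun j => Pool.Agent.W223.VD.value_ne_zero hr hf hd _ (hP j)
    refine ⟨f, hf, hd, hx, ?_, hval, ?_⟩
    · show (f.map (Int.castRingHom ℂ)).mahlerMeasure ≤ B ^ r
      unfold height at hh
      rw [hd, div_le_iff₀ hr0, mul_comm, ← Real.log_pow] at hh
      exact (Real.log_le_log_iff hM (by positivity)).mp hh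
    · obtain ⟨hK, hfr⟩ := Pool.Agent.W223.VD.field_data (by omega) hf hd hx
      obtain ⟨hxK, htop⟩ := Pool.Agent.W223.VD.top_of (K := ℚ⟮x⟯) (x := x) rfl
      have hgen : (⟨x, hxK⟩ : ℚ⟮x⟯) = AdjoinSimple.gen ℚ x := rfl
      have hxf : aeval (⟨x, hxK⟩ : ℚ⟮x⟯) f = 0 := by
        have h9 : (aeval (⟨x, hxK⟩ : ℚ⟮x⟯) f : ℚ⟮x⟯).1 = 0 := by
          have := aeval_algebraMap_apply ℂ (⟨x, hxK⟩ : ℚ⟮x⟯) f
          have h10 : algebraMap ℚ⟮x⟯ ℂ (⟨x, hxK⟩ : ℚ⟮x⟯) = x := rfl
          rw [h10, hx] at this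
          exact this.symm
        exact Subtype.ext h9
      have hTR := Pool.Agent.W598.VD.TR.t Pool.Agent.W74.VD.GL.t ℚ⟮x⟯ q S S' P ⟨x, hxK⟩ f htop hf
        (by rw [hd]; exact hfr.symm) hxf hP Finset.subset_union_left
        (Pool.Agent.W223.VD.bad_det S P hdet) (Pool.Agent.W223.VD.bad_prime hS P) hval
      have htr : (r : ℝ) * truncated S P x = Pool.Agent.W223.VD.cnt S P (⟨x, hxK⟩ : ℚ⟮x⟯) := by
        unfold truncated
        rw [dif_pos hK, hfr, mul_div_cancel₀ _ hr0.ne']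
        rfl
      have hld : logDisc x = Pool.Agent.W223.VD.logDisc x := rfl
      rw [hmh, ← hld]
      have h3 : (r : ℝ) * (truncated S P x + logDisc x + C₀) ≤ r * ((q - κ) * height f) :=
        mul_le_mul_of_nonneg_left hv.le hr0.le
      have h4 : -(r * |C₀|) ≤ (r : ℝ) * C₀ := by
        rw [← mul_neg]
        exact mul_le_mul_of_nonneg_left (neg_abs_le C₀) hr0.le
      have h5 : (r : ℝ) * (truncated S P x + logDisc x + C₀) =
          r * truncated S P x + r * logDisc x + r * C₀ := by ring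
      have h6 : ((q : ℝ) - κ) * (r * height f) = r * ((q - κ) * height f) := by ring
      rw [h6]
      linarith
  refine ⟨h1.subset hsub, ?_⟩
  have h3 : ((exceptional S P r κ C₀ B).ncard : ℝ) ≤
      ((Pool.Agent.W223.VD.Exc S' P r (q - κ) (r * |C₀|) B).ncard : ℝ) := by
    exact_mod_cast Set.ncard_le_ncard hsub h1
  refine h3.trans (h2.trans (le_of_eq ?_))
  have h4 : Pool.Agent.W223.VD.expo (alpha r c η) r q (q - (q - κ)) =
      exponent (alpha r c η) r q κ := by
    rw [sub_sub_cancel]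
    rfl
  rw [h4]

end Pool.Agent.W223.VD.Points
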